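import Pool.Agent.V5helper50.SP.Stm

/-!
# Project SP, job MTU: the main term, upper bound
-/

set_option autoImplicit false

open Finset MeasureTheory

namespace Pool.Agent.V5helper96.SP

open Pool.Agent.V5helper51.MT (e g a G cube φ)
open Pool.Agent.V5helper50.SP (φ2)

theorem phi2_eq (t : ℝ) : φ2 t = 2 * max 0 (1 - |t - 1 / 2|) := by
  unfold φ2 φ
  congr 4
  ring

theorem phi2_nonneg (t : ℝ) : 0 ≤ φ2 t := by
  rw [phi2_eq]
  have := le_max_left 0 (1 - |t - 1 / 2|)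
  linarith

theorem phi2_cont : Continuous φ2 := by
  have h : φ2 = fun t => 2 * max 0 (1 - |t - 1 / 2|) := funext phi2_eq
  rw [h]
  fun_prop

theorem phi2_out {t : ℝ} (h : t ≤ -1 / 2 ∨ 3 / 2 ≤ t) : φ2 t = 0 := by
  rw [phi2_eq, max_eq_left, mul_zero]
  rcases h with h | h
  · rw [abs_of_nonpos (by linarith)]
    linarith
  · rw [abs_of_nonneg (by linarith)]
    linarith

theorem phi2_left {t : ℝ} (h1 : -1 / 2 ≤ t) (h2 : t ≤ 1 / 2) : φ2 t = 2 * t + 1 := by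
  rw [phi2_eq, abs_of_nonpos (by linarith), max_eq_right (by linarith)]
  ring

theorem phi2_right {t : ℝ} (h1 : 1 / 2 ≤ t) (h2 : t ≤ 3 / 2) : φ2 t = 3 - 2 * t := by
  rw [phi2_eq, abs_of_nonneg (by linarith), max_eq_right (by linarith)]
  ring

theorem phi2_int {a b : ℝ} (hab : a ≤ b) : ∫ t in a..b, φ2 t ≤ 2 := by
  have hi : ∀ c d : ℝ, IntervalIntegrable φ2 volume c d := fun c d => phi2_cont.intervalIntegrable c d
  have h1 : ∫ t in a..b, φ2 t ≤ ∫ t in (min a (-1 / 2))..(max b (3 / 2)), φ2 t :=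
    intervalIntegral.integral_mono_interval (min_le_left _ _) hab (le_max_left _ _)
      (Filter.Eventually.of_forall fun t => phi2_nonneg t) (hi _ _)
  refine h1.trans (le_of_eq ?_)
  rw [← intervalIntegral.integral_add_adjacent_intervals (hi _ (-1 / 2)) (hi _ _),
    ← intervalIntegral.integral_add_adjacent_intervals (hi (-1 / 2) (1 / 2)) (hi _ _),
    ← intervalIntegral.integral_add_adjacent_intervals (hi (1 / 2) (3 / 2)) (hi _ _)]
  have e1 : ∫ t in (min a (-1 / 2))..(-1 / 2), φ2 t = 0 := by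
    rw [intervalIntegral.integral_congr (g := fun _ => (0 : ℝ))]
    · simp
    · intro t ht
      rw [Set.uIcc_of_le (min_le_right _ _)] at ht
      exact phi2_out (Or.inl ht.2)
  have e2 : ∫ t in (3 / 2 : ℝ)..(max b (3 / 2)), φ2 t = 0 := by
    rw [intervalIntegral.integral_congr (g := fun _ => (0 : ℝ))]
    · simp
    · intro t ht
      rw [Set.uIcc_of_le (le_max_right _ _)] at ht
      exact phi2_out (Or.inr ht.1)
  have i1 : ∀ c d : ℝ, IntervalIntegrable (fun x : ℝ => 2 * x) volume c d := fun c d =>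
    (by fun_prop : Continuous fun x : ℝ => 2 * x).intervalIntegrable c d
  have i2 : ∀ (r c d : ℝ), IntervalIntegrable (fun _ : ℝ => r) volume c d := fun r c d =>
    (continuous_const : Continuous fun _ : ℝ => r).intervalIntegrable c d
  have e3 : ∫ t in (-1 / 2 : ℝ)..(1 / 2), φ2 t = 1 := by
    rw [intervalIntegral.integral_congr (g := fun t => 2 * t + 1)]
    · rw [intervalIntegral.integral_add (i1 _ _) (i2 _ _ _),
        intervalIntegral.integral_const_mul, integral_id, intervalIntegral.integral_const]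
      norm_num
    · intro t ht
      rw [Set.uIcc_of_le (by norm_num)] at ht
      exact phi2_left ht.1 ht.2
  have e4 : ∫ t in (1 / 2 : ℝ)..(3 / 2), φ2 t = 1 := by
    rw [intervalIntegral.integral_congr (g := fun t => 3 - 2 * t)]
    · rw [intervalIntegral.integral_sub (i2 _ _ _) (i1 _ _),
        intervalIntegral.integral_const_mul, integral_id, intervalIntegral.integral_const]
      norm_num
    · intro t ht
      rw [Set.uIcc_of_le (by norm_num)] at ht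
      exact phi2_right ht.1 ht.2
  rw [e1, e2, e3, e4]
  norm_num

/-- the derivative of `G` -/
noncomputable def G1 (k q ρ : ℕ) (α : Fin (k - 1) → ℝ) (t : ℝ) : ℝ :=
  k * (q * t + ρ) ^ (k - 1) +
    ∑ j : Fin (k - 1), α j * ((((j : ℕ) + 1 : ℕ) : ℝ) * (q * t + ρ) ^ (j : ℕ) * q)

theorem G_deriv (k q ρ : ℕ) (hq : 1 ≤ q) (α : Fin (k - 1) → ℝ) (t : ℝ) :
    HasDerivAt (G k q ρ α) (G1 k q ρ α t) t := by
  have hq0 : (q : ℝ) ≠ 0 := by exact_mod_cast (by omega : q ≠ 0)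
  have h0 : HasDerivAt (fun t : ℝ => (q : ℝ) * t + ρ) q t := by
    simpa using ((hasDerivAt_id t).const_mul (q : ℝ)).add_const (ρ : ℝ)
  have h1 : HasDerivAt (fun t : ℝ => (((q : ℝ) * t + ρ) ^ k - (ρ : ℝ) ^ k) / q)
      (k * (q * t + ρ) ^ (k - 1)) t := by
    have h2 := ((h0.pow k).sub_const ((ρ : ℝ) ^ k)).div_const (q : ℝ)
    have h3 : (k : ℝ) * (q * t + ρ) ^ (k - 1) * q / q = k * (q * t + ρ) ^ (k - 1) := by
      field_simp
    rw [h3] at h2
    exact h2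
  have h4 : HasDerivAt (fun t : ℝ => g k α ((q : ℝ) * t + ρ))
      (∑ j : Fin (k - 1), α j * ((((j : ℕ) + 1 : ℕ) : ℝ) * (q * t + ρ) ^ (j : ℕ) * q)) t := by
    unfold g
    refine HasDerivAt.fun_sum fun j _ => ?_
    have h5 := (h0.pow ((j : ℕ) + 1)).const_mul (α j)
    simpa using h5
  exact h1.add h4

theorem G1_cont (k q ρ : ℕ) (α : Fin (k - 1) → ℝ) : Continuous (G1 k q ρ α) := by
  unfold G1
  fun_prop

theorem G1_ge (k q ρ : ℕ) (hk : 2 ≤ k) (hq : 1 ≤ q) (α : Fin (k - 1) → ℝ) :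
    ∃ X₁ : ℕ, 1 ≤ X₁ ∧ ∀ X₀ : ℕ, X₁ ≤ X₀ → ∀ t : ℝ, (X₀ : ℝ) ≤ t →
      ((q : ℝ) * X₀) ^ (k - 1) ≤ G1 k q ρ α t := by
  have hq1 : (1 : ℝ) ≤ q := by exact_mod_cast hq
  have hρ0 : (0 : ℝ) ≤ ρ := Nat.cast_nonneg _
  obtain ⟨A, hA⟩ : ∃ A : ℝ, A = ∑ j : Fin (k - 1), |α j| * ((((j : ℕ) + 1 : ℕ) : ℝ) * q) := ⟨_, rfl⟩
  have hA0 : 0 ≤ A := by rw [hA]; exact sum_nonneg fun j _ => by positivity
  obtain ⟨n, hn⟩ := exists_nat_ge (A + 1)
  refine ⟨n, ?_, fun X₀ hX₀ t ht => ?_⟩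
  · have : (1 : ℝ) ≤ n := by linarith
    exact_mod_cast this
  have hXn : (n : ℝ) ≤ X₀ := by exact_mod_cast hX₀
  obtain ⟨x, hx⟩ : ∃ x : ℝ, x = q * t + ρ := ⟨_, rfl⟩
  have ht0 : 0 ≤ t := by linarith
  have hqt : (q : ℝ) * X₀ ≤ x := by
    rw [hx]
    have := mul_le_mul_of_nonneg_left ht (by linarith : (0 : ℝ) ≤ q)
    linarith
  have hX0 : (0 : ℝ) ≤ X₀ := by linarith
  have hx1 : A + 1 ≤ x := by
    have : (X₀ : ℝ) ≤ q * X₀ := by nlinarith
    linarith
  have hx1' : 1 ≤ x := by linarith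
  have h1 : ((q : ℝ) * X₀) ^ (k - 1) ≤ x ^ (k - 1) := pow_le_pow_left₀ (by positivity) hqt _
  refine h1.trans ?_
  unfold G1
  rw [← hx]
  have h2 : -(A * x ^ (k - 2)) ≤
      ∑ j : Fin (k - 1), α j * ((((j : ℕ) + 1 : ℕ) : ℝ) * x ^ (j : ℕ) * q) := by
    refine (abs_le.1 ?_).1
    refine (abs_sum_le_sum_abs _ _).trans ?_
    rw [hA, sum_mul]
    refine sum_le_sum fun j _ => ?_
    have hj : (j : ℕ) < k - 1 := j.2
    rw [abs_mul, abs_of_nonneg (by positivity : 0 ≤ (((j : ℕ) + 1 : ℕ) : ℝ) * x ^ (j : ℕ) * q)]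
    have h3 : x ^ (j : ℕ) ≤ x ^ (k - 2) := pow_le_pow_right₀ hx1' (by omega)
    calc |α j| * ((((j : ℕ) + 1 : ℕ) : ℝ) * x ^ (j : ℕ) * q) =
          |α j| * ((((j : ℕ) + 1 : ℕ) : ℝ) * q) * x ^ (j : ℕ) := by ring
      _ ≤ _ := mul_le_mul_of_nonneg_left h3 (by positivity)
  have h4 : x ^ (k - 1) = x ^ (k - 2) * x := by
    rw [← pow_succ]
    congr 1
    omega
  have hk2 : (2 : ℝ) ≤ k := by exact_mod_cast hk
  have h5 : 0 ≤ x ^ (k - 2) := by positivity
  have h6 : A * x ^ (k - 2) ≤ x ^ (k - 2) * x := by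
    rw [mul_comm]
    exact mul_le_mul_of_nonneg_left (by linarith) h5
  have h7 : 2 * (x ^ (k - 2) * x) ≤ k * (x ^ (k - 2) * x) :=
    mul_le_mul_of_nonneg_right hk2 (by positivity)
  rw [h4]
  linarith

theorem t_MTU : Pool.Agent.V5helper50.SP.S_MTU := by
  intro k q ρ hk hq α
  obtain ⟨X₁, hX₁, hG⟩ := G1_ge k q ρ hk hq α
  refine ⟨X₁, hX₁, fun X₀ X hX₀ hX w => ?_⟩
  have hq1 : (1 : ℝ) ≤ q := by exact_mod_cast hq
  have hX0R : (1 : ℝ) ≤ X₀ := by exact_mod_cast (by omega : 1 ≤ X₀)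
  have hXR : (X₀ : ℝ) ≤ X := by exact_mod_cast hX
  obtain ⟨m, hm⟩ : ∃ m : ℝ, m = ((q : ℝ) * X₀) ^ (k - 1) := ⟨_, rfl⟩
  have hm0 : 0 < m := by rw [hm]; positivity
  have hGc : Continuous (G k q ρ α) :=
    continuous_iff_continuousAt.mpr fun t => (G_deriv k q ρ hq α t).continuousAt
  have hHd : ∀ t, HasDerivAt (fun u => G k q ρ α u - w) (G1 k q ρ α t) t := fun t =>
    (G_deriv k q ρ hq α t).sub_const w
  have hsub := intervalIntegral.integral_comp_mul_deriv (a := (X₀ : ℝ)) (b := (X : ℝ))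
    (f := fun u => G k q ρ α u - w) (f' := G1 k q ρ α) (g := φ2) (fun t _ => hHd t)
    (G1_cont k q ρ α).continuousOn phi2_cont
  have hge : ∀ t, (X₀ : ℝ) ≤ t → m ≤ G1 k q ρ α t := fun t ht => by
    rw [hm]
    exact hG X₀ hX₀ t ht
  have hmono : (G k q ρ α X₀ - w) ≤ (G k q ρ α X - w) := by
    have h1 : MonotoneOn (G k q ρ α) (Set.Icc (X₀ : ℝ) X) := by
      apply monotoneOn_of_deriv_nonneg (convex_Icc _ _) hGc.continuousOn
      · intro t _
        exact (G_deriv k q ρ hq α t).differentiableAt.differentiableWithinAt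
      · intro t ht
        rw [interior_Icc] at ht
        rw [(G_deriv k q ρ hq α t).deriv]
        exact hm0.le.trans (hge t ht.1.le)
    have h2 := h1 (Set.left_mem_Icc.mpr hXR) (Set.right_mem_Icc.mpr hXR) hXR
    linarith
  have hle : ∫ u in (X₀ : ℝ)..X, φ2 (G k q ρ α u - w) * m ≤
      ∫ u in (X₀ : ℝ)..X, (φ2 ∘ fun u => G k q ρ α u - w) u * G1 k q ρ α u := by
    apply intervalIntegral.integral_mono_on hXR
    · exact ((phi2_cont.comp (hGc.sub continuous_const)).mul continuous_const).intervalIntegrable _ _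
    · exact ((phi2_cont.comp (hGc.sub continuous_const)).mul (G1_cont k q ρ α)).intervalIntegrable _ _
    · intro t ht
      exact mul_le_mul_of_nonneg_left (hge t ht.1) (phi2_nonneg _)
  rw [hsub, intervalIntegral.integral_mul_const] at hle
  rw [← hm, le_div_iff₀ hm0]
  exact hle.trans (phi2_int hmono)

end Pool.Agent.V5helper96.SP
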